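import Pool.Agent.helper57.PP.Spec

/-!
# Project pp, row CO
-/

set_option autoImplicit false

namespace Pool.Agent.helper57.PP

open Finset

theorem CO (h1 : CX_stmt) (h2 : SWA_stmt) : CO_stmt := by
  intro W _ T R a z bs C σ' σ'' s h y hy
  obtain ⟨R1, C1, _, hB⟩ := (h2 W T a z bs).2.2 R C σ' (s :: σ'') ∅ (pth a bs z) h
  obtain ⟨A, B, _, _, _, _, _, _, hrest⟩ := sw_cons hB
  have h3 := (h1 W T _ _ a z bs _ _ σ'' hrest).2.1 y
  by_cases hP : y ∈ pth a bs z
  · exact Or.inl hP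
  · refine Or.inr (h3.2 ⟨Or.inl ?_, ?_⟩)
    · simp only [List.mem_cons, List.mem_append, List.not_mem_nil, or_false] at hy ⊢
      tauto
    · rintro (h4 | h4)
      · exact hP h4
      · rw [mem_vs] at h4
        obtain ⟨t, ht, _⟩ := h4
        simp at ht

end Pool.Agent.helper57.PP
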